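import Mathlib

set_option autoImplicit false

namespace Pool.Agent.Results.MP_0c3956_an.No

open Set Filter Topology MeasureTheory BoundedContinuousFunction

universe u

/-- exactly one invariant Borel probability measure -/
def UniquelyErgodic {X : Type u} [TopologicalSpace X] (T : X → X) : Prop :=
  letI : MeasurableSpace X := borel X
  ∃! μ : Measure X, IsProbabilityMeasure μ ∧ μ.map T = μ

/-- bounded gaps: every interval of `L` consecutive positive integers meets `S` -/
def Syndetic (S : Set ℕ) : Prop := ∃ L, ∀ n ≥ 1, ∃ s ∈ S, n ≤ s ∧ s < n + L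

/-- weak interpolation set of order `k` for uniquely ergodic systems -/
def WeakInterp (k : ℕ) (S : Set ℕ) : Prop :=
  ∀ f : S → Fin k, ∃ (X : Type u) (_ : MetricSpace X) (_ : CompactSpace X) (T : X → X),
    Continuous T ∧ UniquelyErgodic T ∧ ∃ x : X, DenseRange (fun n : ℕ => T^[n] x) ∧
      ∃ F : X → ℂ, Continuous F ∧ ∀ n : S, F (T^[n] x) = ((f n : ℕ) : ℂ)

theorem limit {X : Type u} [MetricSpace X] [CompactSpace X] [MeasurableSpace X] [BorelSpace X]
    {T : X → X} (hT : Continuous T) (y : ℕ → X) (Φ : X →ᵇ ℝ)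
    (h : ∀ k, ∀ i < k + 1, Φ (T^[i] (y k)) = 0) :
    ∃ ν : Measure X, IsProbabilityMeasure ν ∧ ν.map T = ν ∧ ∫ x, Φ x ∂ν = 0 := by
  let m : ℕ → Measure X := fun k =>
    ((k + 1 : ℕ) : ENNReal)⁻¹ • ∑ i ∈ Finset.range (k + 1), Measure.dirac (T^[i] (y k))
  have hm : ∀ k, IsProbabilityMeasure (m k) := fun k => ⟨by
    simp only [m, Measure.smul_apply, Measure.finsetSum_apply, measure_univ, Finset.sum_const,
      Finset.card_range, nsmul_eq_mul, mul_one, smul_eq_mul]
    exact ENNReal.inv_mul_cancel (by simp) (by simp)⟩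
  have hi : ∀ k (g : X →ᵇ ℝ), ∫ x, g x ∂m k =
      ((k + 1 : ℕ) : ℝ)⁻¹ * ∑ i ∈ Finset.range (k + 1), g (T^[i] (y k)) := by
    intro k g
    simp only [m]
    rw [integral_smul_measure, integral_finsetSum_measure fun i _ => g.integrable _]
    simp only [integral_dirac, ENNReal.toReal_inv, ENNReal.toReal_natCast, smul_eq_mul]
  let P : ℕ → ProbabilityMeasure X := fun k => ⟨m k, hm k⟩
  obtain ⟨ν, -, hν⟩ := isCompact_univ.ultrafilter_le_nhds ((hyperfilter ℕ).map P) (by simp)
  have hlim : ∀ g : X →ᵇ ℝ, Tendsto (fun k => ∫ x, g x ∂m k) (hyperfilter ℕ)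
      (𝓝 (∫ x, g x ∂(ν : Measure X))) := ProbabilityMeasure.tendsto_iff_forall_integral_tendsto.1 hν
  refine ⟨ν, inferInstance, ?_, ?_⟩
  · have := Measure.isProbabilityMeasure_map (μ := (ν : Measure X)) hT.measurable.aemeasurable
    refine ext_of_forall_integral_eq_of_IsFiniteMeasure fun g => ?_
    rw [integral_map hT.measurable.aemeasurable g.continuous.aestronglyMeasurable]
    have h1 := (hlim (g.compContinuous ⟨T, hT⟩)).sub (hlim g)
    have h2 : Tendsto (fun k => ∫ x, g.compContinuous ⟨T, hT⟩ x ∂m k - ∫ x, g x ∂m k) atTop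
        (𝓝 0) := by
      refine squeeze_zero_norm (a := fun k : ℕ => 2 * ‖g‖ * (1 / ((k : ℝ) + 1))) (fun k => ?_)
        (by simpa using tendsto_one_div_add_atTop_nhds_zero_nat.const_mul (2 * ‖g‖))
      rw [hi, hi, ← mul_sub, ← Finset.sum_sub_distrib]
      have : ∑ i ∈ Finset.range (k + 1), (g.compContinuous ⟨T, hT⟩ (T^[i] (y k)) -
          g (T^[i] (y k))) = g (T^[k + 1] (y k)) - g (T^[0] (y k)) := by
        rw [← Finset.sum_range_sub fun i => g (T^[i] (y k))]
        exact Finset.sum_congr rfl fun i _ => by rw [Function.iterate_succ_apply']; rfl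
      rw [this, norm_mul, mul_comm, one_div, norm_inv, Real.norm_natCast]
      push_cast
      gcongr
      linarith [norm_sub_le (g (T^[k + 1] (y k))) (g (T^[0] (y k))),
        g.norm_coe_le_norm (T^[k + 1] (y k)), g.norm_coe_le_norm (T^[0] (y k))]
    exact sub_eq_zero.1 (tendsto_nhds_unique h1 (h2.mono_left Nat.hyperfilter_le_atTop))
  · refine tendsto_nhds_unique (hlim Φ) (tendsto_const_nhds.congr fun k => ?_)
    rw [hi, Finset.sum_eq_zero fun i hi => h k i (Finset.mem_range.1 hi), mul_zero]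

/-- a function on `S` that disagrees with the word `w` in every window -/
theorem kill {S : Set ℕ} (hS : Syndetic S) : ∃ B > 0, ∀ w : ℕ → Bool, ∃ f : ℕ → Bool,
    ∀ p, ∃ s ∈ S, p ≤ s ∧ s < p + 2 * B ∧ f s ≠ w (s - p) := by
  classical
  obtain ⟨L, hL⟩ := hS
  have hL0 : 0 < L := by
    obtain ⟨s, -, h1, h2⟩ := hL 1 le_rfl
    omega
  have h2 : L * (2 * L) < 2 ^ (2 * L) := by
    have : L < 2 ^ L := Nat.lt_two_pow_self
    have h3 : 2 * L ≤ 2 ^ L := by
      obtain ⟨k, rfl⟩ : ∃ k, L = k + 1 := ⟨L - 1, by omega⟩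
      have : k < 2 ^ k := Nat.lt_two_pow_self
      rw [pow_succ]; omega
    rw [two_mul L, pow_add, ← two_mul L]
    exact Nat.mul_lt_mul_of_lt_of_le this h3 (by positivity)
  set B := L * (2 * L) with hB
  have hB0 : 0 < B := by positivity
  refine ⟨B, hB0, fun w => ?_⟩
  have key : ∀ j : ℕ, ∃ g : ℕ → Bool, ∀ r < B, ∃ s ∈ S, (j + 1) * B ≤ s ∧ s < (j + 1) * B + B ∧
      g s ≠ w (s - (j * B + r)) := by
    intro j
    choose σ h1 h3 h4 using fun t : Fin (2 * L) => hL ((j + 1) * B + t * L)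
      (le_add_right (Nat.mul_pos (Nat.succ_pos j) hB0))
    have hinj : Function.Injective σ := by
      refine StrictMono.injective fun a b hab => (h4 a).trans_le (le_trans ?_ (h3 b))
      have : (a + 1) * L ≤ b * L := Nat.mul_le_mul_right L hab
      rw [add_mul, one_mul] at this
      omega
    obtain ⟨v, hv⟩ : ∃ v : Fin (2 * L) → Bool, ∀ r : Fin B, v ≠ fun t => w (σ t - (j * B + r)) := by
      by_contra hc
      push Not at hc
      have := Fintype.card_le_of_surjective (fun (r : Fin B) t => w (σ t - (j * B + r)))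
        fun v => (hc v).imp fun r hr => hr.symm
      simp only [Fintype.card_fun, Fintype.card_bool, Fintype.card_fin] at this
      omega
    refine ⟨Function.extend σ v fun _ => false, fun r hr => ?_⟩
    obtain ⟨t, ht⟩ := Function.ne_iff.1 (hv ⟨r, hr⟩)
    refine ⟨σ t, h1 t, (Nat.le_add_right _ _).trans (h3 t), ?_, by rwa [hinj.extend_apply]⟩
    have : (t + 1) * L ≤ 2 * L * L := Nat.mul_le_mul_right L t.2
    rw [add_mul, one_mul, mul_comm (2 * L), ← hB] at this
    have := h4 t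
    omega
  choose g hg using key
  refine ⟨fun s => g (s / B - 1) s, fun p => ?_⟩
  obtain ⟨s, h1, h3, h4, h5⟩ := hg (p / B) (p % B) (Nat.mod_lt _ hB0)
  have e : p / B * B + p % B = p := Nat.div_add_mod' p B
  have e' : s / B = p / B + 1 := Nat.div_eq_of_lt_le h3 (by rw [add_mul _ 1, one_mul]; exact h4)
  have := Nat.mod_lt p hB0
  rw [add_mul, one_mul] at h3 h4
  refine ⟨s, h1, by omega, by omega, ?_⟩
  dsimp only
  rw [e] at h5
  rwa [e', Nat.add_sub_cancel]

theorem result : ¬ ∃ S : Set ℕ, (∀ n ∈ S, 1 ≤ n) ∧ Syndetic S ∧ WeakInterp.{u} 2 S := by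
  classical
  rintro ⟨S, -, hS, h⟩
  obtain ⟨B, hB, hk⟩ := kill hS
  choose f hf using fun w : Fin (2 * B) → Bool => hk fun i => if h : i < 2 * B then w ⟨i, h⟩ else false
  obtain ⟨e, he⟩ := exists_surjective_nat (Fin (2 * B) → Bool)
  obtain ⟨X, _, _, T, hT, ⟨μ, hμ, hu⟩, x, -, F, hF, h⟩ := h fun n =>
    if f (e (Nat.unpair (Nat.sqrt n)).1) n then 1 else 0
  let _ : MeasurableSpace X := borel X
  have : BorelSpace X := ⟨rfl⟩
  have := hμ.1
  let Φ : (Fin (2 * B) → Bool) → X →ᵇ ℝ := fun w => BoundedContinuousFunction.mkOfCompact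
    ⟨fun y => ∏ i : Fin (2 * B), ‖F (T^[i] y) - if w i then 0 else 1‖,
      continuous_finsetProd _ fun i _ => ((hF.comp (hT.iterate i)).sub continuous_const).norm⟩
  have hΦ : ∀ w y, Φ w y = ∏ i : Fin (2 * B), ‖F (T^[i] y) - if w i then 0 else 1‖ :=
    fun _ _ => rfl
  have h0 : ∀ w, ∀ᵐ y ∂μ, Φ w y = 0 := by
    intro w
    obtain ⟨a, rfl⟩ := he w
    obtain ⟨ν, h1, h2, h3⟩ := limit hT
      (fun k => T^[Nat.pair a (k + 2 * B) * Nat.pair a (k + 2 * B)] x) (Φ (e a)) (by
      intro k i hi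
      set j := Nat.pair a (k + 2 * B) with hj
      have h4 : k + 2 * B ≤ j := Nat.right_le_pair _ _
      obtain ⟨s, h5, h6, h7, h8⟩ := hf (e a) (i + j * j)
      obtain ⟨t, rfl⟩ : ∃ t, s = t + (i + j * j) := ⟨s - (i + j * j), by omega⟩
      have ht : t < 2 * B := by omega
      have h9 : Nat.sqrt (t + (i + j * j)) = j := by
        rw [← add_assoc, add_comm]; exact Nat.sqrt_add_eq j (by omega)
      have h10 := h ⟨_, h5⟩
      have h11 : (Nat.unpair j).1 = a := by rw [hj, Nat.unpair_pair]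
      simp only [h9, h11] at h10
      rw [Nat.add_sub_cancel, dif_pos ht] at h8
      rw [hΦ]
      refine Finset.prod_eq_zero (Finset.mem_univ ⟨t, ht⟩) ?_
      rw [← Function.iterate_add_apply, ← Function.iterate_add_apply, add_assoc, h10]
      revert h8
      cases f (e a) (t + (i + j * j)) <;> cases e a ⟨t, ht⟩ <;> simp)
    rw [hu ν ⟨h1, h2⟩] at h3
    exact (integral_eq_zero_iff_of_nonneg (f := fun y => Φ (e a) y)
      (fun y => le_of_le_of_eq (Finset.prod_nonneg fun _ _ => norm_nonneg _) (hΦ _ y).symm)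
      ((Φ (e a)).integrable μ)).1 h3
  obtain ⟨y, hy⟩ := (ae_all_iff.2 h0).exists
  have := hy fun i => decide (F (T^[i] y) ≠ 0)
  rw [hΦ, Finset.prod_eq_zero_iff] at this
  obtain ⟨i, -, hi⟩ := this
  by_cases h1 : F (T^[i] y) = 0 <;> simp [h1] at hi

end Pool.Agent.Results.MP_0c3956_an.No
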